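import Pool.Agent.W312.WT.Stm

/-!
# Project WT (helper312): the decomposition theorem from its halves
-/

set_option autoImplicit false

namespace Pool.Agent.W688.WT.SDecF

open Pool.Agent.W312.WT

theorem proof_SDecF : Pool.Agent.W312.WT.SDecF := by
  intro hSwp hSub hDca hDcb x B ls ts hB hperm hlen hsort
  have hx : x ∈ ls := hperm.mem_iff.2 List.mem_cons_self
  obtain ⟨A₀, R₀, rfl⟩ := List.append_of_mem hx
  have hR₀ : ∀ y ∈ R₀, x.1 ≤ y.1 := by
    intro y hy
    have h1 : y ∈ x :: B := hperm.mem_iff.1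
      (List.mem_append_right _ (List.mem_cons_of_mem _ hy))
    rcases List.mem_cons.1 h1 with rfl | h1
    · exact le_rfl
    · exact hB y h1
  obtain ⟨A, R, hP, hR, hc⟩ := hDca hSwp x A₀ R₀ ts hR₀ hlen hsort
  obtain ⟨A', R', hP', hA', hR', hc'⟩ := hDcb hSub x A R ts (max (ts.getD A.length 0) x.2.1)
    (hlen.trans hP.length_eq.symm) hsort (le_max_left _ _) hR
  exact ⟨A', R', _, hP'.trans hP, hA', hR', hc'.trans hc⟩

end Pool.Agent.W688.WT.SDecF
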